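import Pool.Agent.helper56.P2B.SpecP

/-!
# Row p2b:MIN: three almost equally spaced points (helper13)
-/

set_option autoImplicit false

open Complex Metric Set Filter Topology MeasureTheory
open Pool.Agent.helper98.ILF
open WP (it)
open HY (UD T S hd UN RM)
open PM
open PL (TP LO PZ GJ INR PG DK ht tr DI CY SUBH hG hq BJ)
open P2 (SS FLS FL CLS FR TL)

noncomputable section

namespace P2B

theorem MIN_cs (a b c d : ℝ) (e t : ℝ) (h1 : a ^ 2 + b ^ 2 ≤ e ^ 2) (h2 : c ^ 2 + d ^ 2 ≤ t ^ 2) :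
    (a * c + b * d) ^ 2 ≤ (e * t) ^ 2 := by
  have h3 : (a * c + b * d) ^ 2 + (a * d - b * c) ^ 2 = (a ^ 2 + b ^ 2) * (c ^ 2 + d ^ 2) := by ring
  have h4 : (a ^ 2 + b ^ 2) * (c ^ 2 + d ^ 2) ≤ e ^ 2 * t ^ 2 := by
    apply mul_le_mul h1 h2 (by positivity) (by positivity)
  have h5 : (e * t) ^ 2 = e ^ 2 * t ^ 2 := by ring
  nlinarith [sq_nonneg (a * d - b * c)]

theorem MIN_cone (e0 e1 e2 t a b t' a' b' : ℝ) (hE : e1 ^ 2 + e2 ^ 2 ≤ e0 ^ 2) (ht : 0 < t) (hab : a ^ 2 + b ^ 2 ≤ t ^ 2)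
    (hpos : 0 < e0 * t - e1 * a - e2 * b) (ht' : 0 < t') (hab' : a' ^ 2 + b' ^ 2 ≤ t' ^ 2) :
    0 ≤ e0 * t' - e1 * a' - e2 * b' := by
  have he0 : 0 < e0 := by
    by_contra hcon
    push Not at hcon
    have h1 := MIN_cs e1 e2 a b e0 t hE hab
    have h2 : |e1 * a + e2 * b| ≤ |e0 * t| := sq_le_sq.1 h1
    have h3 : |e0 * t| = -(e0 * t) := abs_of_nonpos (mul_nonpos_of_nonpos_of_nonneg hcon ht.le)
    rw [h3] at h2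
    have h4 := (abs_le.1 h2).1
    linarith
  have h1 := MIN_cs e1 e2 a' b' e0 t' hE hab'
  have h2 : |e1 * a' + e2 * b'| ≤ |e0 * t'| := sq_le_sq.1 h1
  rw [abs_of_pos (mul_pos he0 ht')] at h2
  have h4 := (abs_le.1 h2).2
  linarith

theorem MIN_sq (z : ℂ) : ‖z‖ ^ 2 = z.re ^ 2 + z.im ^ 2 := by
  rw [Complex.sq_norm, Complex.normSq_apply]; ring

theorem MIN_ud (z : ℂ) (hz : z ∈ UD) : 0 < 1 - (z.re ^ 2 + z.im ^ 2) := by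
  have h : ‖z‖ < 1 := by
    have h1 : z ∈ ball (0 : ℂ) 1 := hz
    simpa using h1
  rw [← MIN_sq z]
  nlinarith [norm_nonneg z]

/-- the first coordinate on the hyperboloid. -/
def MIN_x0 (z : ℂ) : ℝ := (1 + (z.re ^ 2 + z.im ^ 2)) / (1 - (z.re ^ 2 + z.im ^ 2))
def MIN_x1 (z : ℂ) : ℝ := 2 * z.re / (1 - (z.re ^ 2 + z.im ^ 2))
def MIN_x2 (z : ℂ) : ℝ := 2 * z.im / (1 - (z.re ^ 2 + z.im ^ 2))

theorem MIN_hyp (z : ℂ) (hz : z ∈ UD) : MIN_x0 z ^ 2 - MIN_x1 z ^ 2 - MIN_x2 z ^ 2 = 1 := by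
  have h := MIN_ud z hz
  unfold MIN_x0 MIN_x1 MIN_x2
  field_simp
  ring

theorem MIN_pos (z : ℂ) (hz : z ∈ UD) : 0 < MIN_x0 z := by
  have h := MIN_ud z hz
  unfold MIN_x0
  positivity

theorem MIN_cD (z w : ℂ) (hz : z ∈ UD) (hw : w ∈ UD) : cD z w = MIN_x0 z * MIN_x0 w - MIN_x1 z * MIN_x1 w - MIN_x2 z * MIN_x2 w := by
  have h1 := MIN_ud z hz
  have h2 := MIN_ud w hw
  set p : ℂ := 1 - (starRingEnd ℂ) z * w with hp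
  have hT : T z w = (w - z) / p := rfl
  have hpr : p.re = 1 - (z.re * w.re + z.im * w.im) := by
    rw [hp]; simp
  have hpi : p.im = -(z.re * w.im - z.im * w.re) := by
    rw [hp]; simp; ring
  have hps : ‖p‖ ^ 2 = (1 - (z.re * w.re + z.im * w.im)) ^ 2 + (z.re * w.im - z.im * w.re) ^ 2 := by
    rw [MIN_sq p, hpr, hpi]; ring
  have hds : ‖w - z‖ ^ 2 = (w.re - z.re) ^ 2 + (w.im - z.im) ^ 2 := by
    rw [MIN_sq]; simp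
  have hdiff : ‖p‖ ^ 2 - ‖w - z‖ ^ 2 = (1 - (z.re ^ 2 + z.im ^ 2)) * (1 - (w.re ^ 2 + w.im ^ 2)) := by
    rw [hps, hds]; ring
  have hsum : ‖p‖ ^ 2 + ‖w - z‖ ^ 2 = (1 + (z.re ^ 2 + z.im ^ 2)) * (1 + (w.re ^ 2 + w.im ^ 2)) - 4 * (z.re * w.re + z.im * w.im) := by
    rw [hps, hds]; ring
  have hprod : 0 < (1 - (z.re ^ 2 + z.im ^ 2)) * (1 - (w.re ^ 2 + w.im ^ 2)) := mul_pos h1 h2
  have hppos : 0 < ‖p‖ ^ 2 := by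
    have : 0 ≤ ‖w - z‖ ^ 2 := by positivity
    linarith
  have hT2 : ‖T z w‖ ^ 2 = ‖w - z‖ ^ 2 / ‖p‖ ^ 2 := by
    rw [hT, norm_div, div_pow]
  have e1 : cD z w = (‖p‖ ^ 2 + ‖w - z‖ ^ 2) / (‖p‖ ^ 2 - ‖w - z‖ ^ 2) := by
    unfold cD
    rw [hT2]
    have h3 : 0 < ‖p‖ ^ 2 - ‖w - z‖ ^ 2 := by rw [hdiff]; exact hprod
    have h4 : 1 - ‖w - z‖ ^ 2 / ‖p‖ ^ 2 = (‖p‖ ^ 2 - ‖w - z‖ ^ 2) / ‖p‖ ^ 2 := by
      rw [sub_div, div_self hppos.ne']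
    have h5 : 1 + ‖w - z‖ ^ 2 / ‖p‖ ^ 2 = (‖p‖ ^ 2 + ‖w - z‖ ^ 2) / ‖p‖ ^ 2 := by
      rw [add_div, div_self hppos.ne']
    rw [h4, h5, div_div_div_cancel_right₀ hppos.ne']
  rw [e1, hsum, hdiff]
  unfold MIN_x0 MIN_x1 MIN_x2
  field_simp
  ring

theorem MIN : MIN_stmt := by
  intro q0 h0 q1 h1 q2 h2 k hk hk1 hk2 hE z hz
  rw [MIN_cD z q1 hz h1, MIN_cD z q0 hz h0, MIN_cD z q2 hz h2]
  rw [MIN_cD q0 q1 h0 h1] at hk1 hE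
  rw [MIN_cD q1 q2 h1 h2] at hk2 hE
  rw [MIN_cD q0 q2 h0 h2] at hE
  have y0 := MIN_hyp q0 h0
  have y1 := MIN_hyp q1 h1
  have y2 := MIN_hyp q2 h2
  have yz := MIN_hyp z hz
  have p1 := MIN_pos q1 h1
  have pz := MIN_pos z hz
  have key := MIN_cone (MIN_x0 q0 + MIN_x0 q2 - 2 * k * MIN_x0 q1) (MIN_x1 q0 + MIN_x1 q2 - 2 * k * MIN_x1 q1)
    (MIN_x2 q0 + MIN_x2 q2 - 2 * k * MIN_x2 q1) (MIN_x0 q1) (MIN_x1 q1) (MIN_x2 q1) (MIN_x0 z) (MIN_x1 z) (MIN_x2 z)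
    (by
      have : (MIN_x0 q0 + MIN_x0 q2 - 2 * k * MIN_x0 q1) ^ 2 - (MIN_x1 q0 + MIN_x1 q2 - 2 * k * MIN_x1 q1) ^ 2
        - (MIN_x2 q0 + MIN_x2 q2 - 2 * k * MIN_x2 q1) ^ 2 =
        (MIN_x0 q0 ^ 2 - MIN_x1 q0 ^ 2 - MIN_x2 q0 ^ 2) + (MIN_x0 q2 ^ 2 - MIN_x1 q2 ^ 2 - MIN_x2 q2 ^ 2)
        + 4 * k ^ 2 * (MIN_x0 q1 ^ 2 - MIN_x1 q1 ^ 2 - MIN_x2 q1 ^ 2)
        + 2 * (MIN_x0 q0 * MIN_x0 q2 - MIN_x1 q0 * MIN_x1 q2 - MIN_x2 q0 * MIN_x2 q2)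
        - 4 * k * (MIN_x0 q0 * MIN_x0 q1 - MIN_x1 q0 * MIN_x1 q1 - MIN_x2 q0 * MIN_x2 q1)
        - 4 * k * (MIN_x0 q1 * MIN_x0 q2 - MIN_x1 q1 * MIN_x1 q2 - MIN_x2 q1 * MIN_x2 q2) := by ring
      rw [y0, y1, y2] at this
      linarith)
    p1 (by linarith)
    (by
      have : (MIN_x0 q0 + MIN_x0 q2 - 2 * k * MIN_x0 q1) * MIN_x0 q1 - (MIN_x1 q0 + MIN_x1 q2 - 2 * k * MIN_x1 q1) * MIN_x1 q1
        - (MIN_x2 q0 + MIN_x2 q2 - 2 * k * MIN_x2 q1) * MIN_x2 q1 =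
        (MIN_x0 q0 * MIN_x0 q1 - MIN_x1 q0 * MIN_x1 q1 - MIN_x2 q0 * MIN_x2 q1)
        + (MIN_x0 q1 * MIN_x0 q2 - MIN_x1 q1 * MIN_x1 q2 - MIN_x2 q1 * MIN_x2 q2)
        - 2 * k * (MIN_x0 q1 ^ 2 - MIN_x1 q1 ^ 2 - MIN_x2 q1 ^ 2) := by ring
      rw [this, y1]
      linarith)
    pz (by linarith)
  nlinarith [key]

end P2B
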